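import Pool.Agent.Helper52.C2.Goals

/-!
PROJECT C2 (MP_2b0227_gt), packet C2-OP: OpMono, OpMap, OpTwo.
-/

namespace Pool.Agent.Helper24.C2

open Pool.Agent.Helper52.C2

theorem opMono : GoalOpMono := by
  intro ι _ ok M N ⟨l, hl⟩ hoff hdiag
  refine ⟨l, fun v hv hsum => le_trans ?_ (hl v hv hsum)⟩
  unfold quad
  refine Finset.sum_le_sum fun a _ => Finset.sum_le_sum fun b _ => ?_
  by_cases ha : ok a
  · by_cases hb : ok b
    · by_cases hab : a = b
      · subst hab
        nlinarith [hdiag a ha, mul_self_nonneg (v a)]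
      · rw [hoff a b ha hb hab]
    · simp [hv b hb]
  · simp [hv a ha]

open Classical in
theorem opMap : GoalOpMap := by
  intro ι κ _ _ ok ok' M N g ⟨l, hl⟩ hok hN
  refine ⟨fun b => l (g b), fun v hv hsum => ?_⟩
  set v' : ι → ℝ := fun a => ∑ b, if g b = a then v b else 0 with hv'
  have h1 : ∀ f : ι → ℝ, ∑ a, f a * v' a = ∑ b, f (g b) * v b := by
    intro f
    simp only [hv', Finset.mul_sum]
    rw [Finset.sum_comm]
    refine Finset.sum_congr rfl fun b _ => ?_
    simp
  have hs : ∀ a, ¬ ok a → v' a = 0 := by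
    intro a ha
    simp only [hv']
    refine Finset.sum_eq_zero fun b _ => ?_
    split_ifs with h
    · exact hv b fun hb => ha (h ▸ hok b hb)
    · rfl
  have key := hl v' hs (by rw [h1]; exact hsum)
  have e : quad N v = quad M v' := by
    unfold quad
    have e1 : ∀ a, ∑ a', v' a * M a a' * v' a' = (∑ c, M a (g c) * v c) * v' a := by
      intro a
      have := h1 (fun a' => v' a * M a a')
      rw [this, Finset.sum_mul]
      exact Finset.sum_congr rfl fun c _ => by ring
    rw [Finset.sum_congr rfl fun a _ => e1 a, h1 (fun a => ∑ c, M a (g c) * v c)]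
    refine Finset.sum_congr rfl fun b _ => ?_
    rw [Finset.sum_mul]
    refine Finset.sum_congr rfl fun c _ => ?_
    by_cases hb : ok' b
    · by_cases hc : ok' c
      · rw [hN b c hb hc]; ring
      · simp [hv c hc]
    · simp [hv b hb]
  rw [e]
  exact key

/-- the equivalence used for sums over directions -/
def dirEquiv (J : Type) : Option (Option J) ≃ Dir J where
  toFun := fun o => match o with
    | none => Dir.X
    | some none => Dir.Y
    | some (some k) => Dir.V k
  invFun := fun d => match d with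
    | .X => none
    | .Y => some none
    | .V k => some (some k)
  left_inv := by rintro (_ | _ | k) <;> rfl
  right_inv := by rintro (_ | _ | k) <;> rfl

theorem sumDir {J : Type} [Fintype J] (f : Dir J → ℝ) :
    ∑ d, f d = f .X + (f .Y + ∑ k, f (.V k)) := by
  rw [← (dirEquiv J).sum_comp f, Fintype.sum_option, Fintype.sum_option]
  rfl

theorem opTwo : GoalOpTwo := by
  intro J _ M hsym hXX ok hX hY ⟨l, hl⟩
  obtain ⟨p, q, hpq, hz⟩ : ∃ p q : ℝ, (p ≠ 0 ∨ q ≠ 0) ∧ l .X * p + l .Y * q = 0 := by
    by_cases h : l .X = 0 ∧ l .Y = 0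
    · exact ⟨1, 0, Or.inl one_ne_zero, by simp [h.1]⟩
    · refine ⟨l .Y, - l .X, ?_, by ring⟩
      by_contra hcon
      push Not at hcon
      exact h ⟨by simpa using hcon.2, hcon.1⟩
  set v : Dir J → ℝ := fun d => match d with
    | .X => p
    | .Y => q
    | .V _ => 0 with hv
  have h1 := hl v (by
    intro a ha
    cases a with
    | X => exact absurd hX ha
    | Y => exact absurd hY ha
    | V k => rfl) (by
    rw [sumDir]
    simp only [hv, mul_zero, Finset.sum_const_zero, add_zero]
    exact hz)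
  have h2 : quad M v = M .X .X * p ^ 2 + 2 * M .X .Y * p * q + M .Y .Y * q ^ 2 := by
    unfold quad
    simp only [sumDir, hv, mul_zero, zero_mul, Finset.sum_const_zero, add_zero]
    rw [← hsym]
    ring
  rw [h2] at h1
  by_contra hcon
  push Not at hcon
  have ha : 0 < M .X .X := by
    rcases hXX.lt_or_eq with h | h
    · exact h
    · rw [← h] at hcon
      nlinarith [sq_nonneg (M .X .Y)]
  have h3 : (M .X .X * p + M .X .Y * q) ^ 2 + (M .X .X * M .Y .Y - M .X .Y ^ 2) * q ^ 2 ≤ 0 := by
    have : (M .X .X * p + M .X .Y * q) ^ 2 + (M .X .X * M .Y .Y - M .X .Y ^ 2) * q ^ 2 =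
      M .X .X * (M .X .X * p ^ 2 + 2 * M .X .Y * p * q + M .Y .Y * q ^ 2) := by ring
    rw [this]
    exact mul_nonpos_of_nonneg_of_nonpos ha.le h1
  have hd : 0 < M .X .X * M .Y .Y - M .X .Y ^ 2 := by linarith
  have hq : q = 0 := by
    by_contra hq
    have : 0 < (M .X .X * M .Y .Y - M .X .Y ^ 2) * q ^ 2 := by positivity
    nlinarith [sq_nonneg (M .X .X * p + M .X .Y * q)]
  subst hq
  have hp : p ≠ 0 := by
    rcases hpq with h | h
    · exact h
    · exact absurd rfl h
  have : 0 < (M .X .X * p) ^ 2 := by positivity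
  nlinarith

end Pool.Agent.Helper24.C2
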